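import Pool.Agent.FTU.Stmts
import Pool.Agent.Helper16_MBX.REP

/-!
# Row RVS: polynomial wave functions come from states, in every representation
-/

set_option autoImplicit false

open MeasureTheory Complex ProbabilityTheory

noncomputable section

namespace Pool.Agent.FTU.H51

open Pool.Agent.FTU Pool.Agent.MBX Pool.Agent.MBX.H16 Pool.Agent.Helper49_Pauli
open Pool.Agent.Loc (γn PB)
open Pool.Agent.Helper61_Pauli (ev JJ JJ_X a_JJ)

section span

variable {ι : Type} [Fintype ι] [DecidableEq ι]

/-- elements of the span are finite sums -/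
theorem ss_sum {h : (ι → ℝ) → X3 → ℂ} (hh : h ∈ SS ι) :
    ∃ (n : ℕ) (Q : Fin n → MvPolynomial ι ℂ) (f : Fin n → X3 → ℂ), (∀ k, CS (f k)) ∧
      ∀ y x, h y x = ∑ k, evy (Q k) y * f k x := by
  unfold SS at hh
  rw [Submodule.mem_span_set'] at hh
  obtain ⟨n, c, g, hg⟩ := hh
  choose P f hf hPf using fun i => (g i).2
  refine ⟨n, fun i => MvPolynomial.C (c i) * P i, f, hf, fun y x => ?_⟩
  rw [← hg]
  simp only [Finset.sum_apply, Pi.smul_apply, smul_eq_mul]
  refine Finset.sum_congr rfl fun i _ => ?_
  rw [evy_mul, evy_C, hPf i]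
  unfold Gen evy
  ring

theorem cs_zero : CS (0 : X3 → ℂ) := ⟨contDiff_const, HasCompactSupport.zero⟩

/-- a wave function is a finite sum -/
theorem ww_sum {Psi0 : (ι → ℝ) → X3 → S2} (h : WW Psi0) :
    ∃ (n : ℕ) (Q : Fin n → MvPolynomial ι ℂ) (f : Fin n → Fin 2 → X3 → ℂ),
      (∀ k s, CS (f k s)) ∧ ∀ y x s, Psi0 y x s = ∑ k, evy (Q k) y * f k s x := by
  obtain ⟨n0, Q0, f0, hf0, e0⟩ := ss_sum (h 0)
  obtain ⟨n1, Q1, f1, hf1, e1⟩ := ss_sum (h 1)
  refine ⟨n0 + n1, Fin.append Q0 Q1, fun k s => if s = 0 then Fin.append f0 (fun _ => 0) k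
    else Fin.append (fun _ => 0) f1 k, ?_, ?_⟩
  · intro k s
    by_cases hs : s = 0
    · simp only [if_pos hs]
      refine Fin.addCases (fun i => ?_) (fun i => ?_) k
      · rw [Fin.append_left]
        exact hf0 i
      · rw [Fin.append_right]
        exact cs_zero
    · simp only [if_neg hs]
      refine Fin.addCases (fun i => ?_) (fun i => ?_) k
      · rw [Fin.append_left]
        exact cs_zero
      · rw [Fin.append_right]
        exact hf1 i
  · intro y x s
    rw [Fin.sum_univ_add]
    simp only [Fin.append_left, Fin.append_right]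
    by_cases hs : s = 0
    · subst hs
      have e := e0 y x
      simp only [if_true, Pi.zero_apply, mul_zero, Finset.sum_const_zero, add_zero]
      exact e
    · have hs1 : s = 1 := by omega
      subst hs1
      have e := e1 y x
      simp only [if_neg hs, Pi.zero_apply, mul_zero, Finset.sum_const_zero, zero_add]
      exact e

end span

/-- the state of a polynomial wave function -/
theorem state_sum {D : Type} [NormedAddCommGroup D] [InnerProductSpace ℂ D] {n : ℕ}
    (b : Fin n → D) {f : Fin n → Fin 2 → X3 → ℂ} (hf : ∀ k s, CS (f k s)) :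
    IsState (fun (x : X3) (s : Fin 2) => ∑ k, f k s x • b k) := by
  refine ⟨fun s => ?_, fun s => ?_, Submodule.span ℂ (Set.range b), ?_, fun x s => ?_⟩
  · exact ContDiff.sum fun k _ => (hf k s).1.smul contDiff_const
  · refine HasCompactSupport.intro (K := ⋃ k, tsupport (f k s))
      (isCompact_iUnion fun k => (hf k s).2) fun x hx => ?_
    refine Finset.sum_eq_zero fun k _ => ?_
    have h0 : f k s x = 0 := by
      by_contra hne
      exact hx (Set.mem_iUnion.2 ⟨k, subset_tsupport _ hne⟩)
    rw [h0, zero_smul]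
  · exact FiniteDimensional.span_of_finite ℂ (Set.finite_range b)
  · exact Submodule.sum_mem _ fun k _ => Submodule.smul_mem _ _
      (Submodule.subset_span ⟨k, rfl⟩)

/-- **RVS** -/
theorem rvs : RvsStmt := by
  intro cut L alpha hL halpha P D _ _ F Psi0 hPsi0
  obtain ⟨n, Q, f, hf, hQf⟩ := ww_sum hPsi0
  set G := Pool.Agent.Helper75_Pauli.Half.rot F (Pool.Agent.Helper75_Pauli.Half.U P)
    (Pool.Agent.Helper75_Pauli.Half.unitary hL P) with hG
  have hJ : ∀ P Q, inner ℂ (JJ G P) (JJ G Q) = ∫ y, (starRingEnd ℂ)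
        (MvPolynomial.eval (fun i => ((y i : ℝ) : ℂ)) P) *
          MvPolynomial.eval (fun i => ((y i : ℝ) : ℂ)) Q
            ∂stdGaussian (EuclideanSpace ℝ (Mode cut L)) := by
    intro P Q
    rw [Pool.Agent.Helper61_Pauli.inner_JJ]
    unfold Pool.Agent.Helper61_Pauli.EE
    refine integral_congr_ae (Filter.Eventually.of_forall fun y => ?_)
    simp only
    rw [Asm.ev_mul, Pool.Agent.Helper61_Pauli.ev_cj]
    rfl
  have hPsi : Psi0 = Psi Q f := by
    funext y x s
    rw [hQf, Psi_apply]
  set psi : X3 → Fin 2 → D := fun x s => ∑ k, f k s x • JJ G (Q k) with hpsidef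
  have hpsi : IsState psi := state_sum (fun k => JJ G (Q k)) hf
  have hb' : ∀ x s, psi x s = ∑ k, f k s x • JJ G (Q k) := fun _ _ => rfl
  have hR : ∀ x s, psi x s = JJ G (Rp Q fun k => f k s x) := by
    intro x s
    rw [J_Rp, hb']
  rw [hPsi]
  refine ⟨psi, hpsi, ?_, ?_⟩
  · have h := key hJ (fun _ : Fin 2 => (1 : ℝ)) (fun _ => zero_le_one)
      (fun x s => Rp Q fun k => f k s x) (fun s => cont_Rp Q hf s)
    simp only [one_mul] at h
    unfold Pool.Agent.Helper49_Pauli.normSq
    simp only [hR]
    rw [h]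
    congr 1
    funext y x
    unfold nsq
    exact Finset.sum_congr rfl fun s _ => by rw [evy_Rp, Psi_apply]
  · rw [symm cut L hL P alpha halpha D F _ hpsi]
    congr 1
    · have h := key hJ (fun _ : Fin 2 => (1 : ℝ)) (fun _ => zero_le_one)
        (fun x s => Dp alpha P Q f x s) (fun s => cont_Dp alpha P Q hf s)
      simp only [one_mul] at h
      simp only [dirac_psi alpha P Q hf (JJ G) hb' hL F (JJ_X G)]
      rw [h]
      congr 2
      funext y x
      unfold nsq
      exact Finset.sum_congr rfl fun s _ => by rw [evy_Dp alpha P Q hf hL]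
    · have e1 : ∀ x s, (inner ℂ (psi x s) (fieldEnergy F (psi x s))).re =
          ∑ i : Mode cut L, om i *
            ‖JJ G (MvPolynomial.pderiv i (Rp Q fun k => f k s x))‖ ^ 2 := by
        intro x s
        rw [hR]
        exact Asm.fieldEnergy_J (JJ G) (fun i => wave L i.1) F G (a_JJ G) (hfe hL P F) _
      have e2 : ∀ x, ∑ s, (inner ℂ (psi x s) (fieldEnergy F (psi x s))).re =
          ∑ a : Fin 2 × Mode cut L, om a.2 *
            ‖JJ G (Rp (fun k => MvPolynomial.pderiv a.2 (Q k)) fun k => f k a.1 x)‖ ^ 2 := by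
        intro x
        rw [Fintype.sum_prod_type]
        refine Finset.sum_congr rfl fun s _ => ?_
        rw [e1]
        exact Finset.sum_congr rfl fun i _ => by rw [pderiv_Rp]
      simp only [e2]
      have h := key hJ (fun a : Fin 2 × Mode cut L => om a.2) (fun a => Real.sqrt_nonneg _)
        (fun x a => Rp (fun k => MvPolynomial.pderiv a.2 (Q k)) fun k => f k a.1 x)
        (fun a => cont_Rp (fun k => MvPolynomial.pderiv a.2 (Q k)) hf a.1)
      rw [h]
      congr 1
      funext y x
      rw [Fintype.sum_prod_type, Finset.sum_comm]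
      refine Finset.sum_congr rfl fun i _ => ?_
      unfold nsq
      rw [Finset.mul_sum]
      exact Finset.sum_congr rfl fun s _ => by rw [dY2_Psi]

end Pool.Agent.FTU.H51
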